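import Mathlib

/-!
# Hlawka's inequality and an average over signs
-/

set_option autoImplicit false

namespace Pool.Agent.K9h75.ASA

open Finset

section

variable {E : Type*} [NormedAddCommGroup E] [InnerProductSpace ℝ E]

/-- Hlawka's inequality in an inner product space. -/
theorem hlawka (x y z : E) :
    ‖x + y‖ + ‖y + z‖ + ‖z + x‖ ≤ ‖x‖ + ‖y‖ + ‖z‖ + ‖x + y + z‖ := by
  have hsq : ‖x‖ ^ 2 + ‖y‖ ^ 2 + ‖z‖ ^ 2 + ‖x + y + z‖ ^ 2
      = ‖x + y‖ ^ 2 + ‖y + z‖ ^ 2 + ‖z + x‖ ^ 2 := by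
    rw [@norm_add_sq_real E _ _ (x + y) z, @norm_add_sq_real E _ _ x y,
      @norm_add_sq_real E _ _ y z, @norm_add_sq_real E _ _ z x, inner_add_left,
      real_inner_comm x z]
    ring
  have a1 := norm_add_le x y
  have a2 := norm_add_le y z
  have a3 := norm_add_le z x
  have b1 : ‖x + y‖ ≤ ‖z‖ + ‖x + y + z‖ := by
    have := norm_sub_le (x + y + z) z
    rw [add_sub_cancel_right] at this
    linarith
  have b2 : ‖y + z‖ ≤ ‖x‖ + ‖x + y + z‖ := by
    have := norm_sub_le (x + y + z) x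
    rw [show x + y + z - x = y + z by abel] at this
    linarith
  have b3 : ‖z + x‖ ≤ ‖y‖ + ‖x + y + z‖ := by
    have := norm_sub_le (x + y + z) y
    rw [show x + y + z - y = z + x by abel] at this
    linarith
  set p := ‖x‖
  set q := ‖y‖
  set r := ‖z‖
  set t := ‖x + y + z‖
  set u := ‖x + y‖
  set v := ‖y + z‖
  set w := ‖z + x‖
  have hp : 0 ≤ p := norm_nonneg _
  have hq : 0 ≤ q := norm_nonneg _
  have hr : 0 ≤ r := norm_nonneg _
  have ht : 0 ≤ t := norm_nonneg _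
  have c1 : 0 ≤ (p + q - u) * (r + t - u) := mul_nonneg (by linarith) (by linarith)
  have c2 : 0 ≤ (q + r - v) * (p + t - v) := mul_nonneg (by linarith) (by linarith)
  have c3 : 0 ≤ (r + p - w) * (q + t - w) := mul_nonneg (by linarith) (by linarith)
  have key : 0 ≤ (p + q + r + t) * (p + q + r + t - (u + v + w)) := by nlinarith
  rcases (add_nonneg (add_nonneg (add_nonneg hp hq) hr) ht).eq_or_lt with h0 | h0
  · have : p = 0 ∧ q = 0 ∧ r = 0 ∧ t = 0 := ⟨by linarith, by linarith, by linarith, by linarith⟩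
    obtain ⟨e1, e2, e3, e4⟩ := this
    rw [e1, e2, e3, e4] at *
    linarith
  · have := (mul_nonneg_iff_of_pos_left h0).1 key
    linarith

/-- Hlawka's inequality for sums with signs. -/
theorem hlawka_signs (a b c : E) :
    2 * (‖a‖ + ‖b‖ + ‖c‖) ≤ ‖a + b + c‖ + ‖-a + b + c‖ + ‖a - b + c‖ + ‖a + b - c‖ := by
  have h := hlawka (-a + b + c) (a - b + c) (a + b - c)
  have e1 : -a + b + c + (a - b + c) = (2 : ℝ) • c := by rw [two_smul]; abel
  have e2 : a - b + c + (a + b - c) = (2 : ℝ) • a := by rw [two_smul]; abel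
  have e3 : a + b - c + (-a + b + c) = (2 : ℝ) • b := by rw [two_smul]; abel
  have e4 : -a + b + c + (a - b + c) + (a + b - c) = a + b + c := by abel
  rw [e4, e1, e2, e3, norm_smul, norm_smul, norm_smul, Real.norm_ofNat] at h
  linarith

/-- the signed sum -/
def ss {ι : Type*} [Fintype ι] (w : ι → E) (ε : ι → ℤˣ) : E := ∑ i, ((ε i : ℤ) : ℝ) • w i

/-- the sign pattern that flips exactly the coordinate `l` -/
def flip1 {ι : Type*} [DecidableEq ι] (l : ι) : ι → ℤˣ := fun i => if i = l then -1 else 1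

/-- the sign pattern that flips exactly the coordinates outside `T` -/
def flipOut {ι : Type*} [DecidableEq ι] (T : Finset ι) : ι → ℤˣ := fun i => if i ∈ T then 1 else -1

theorem ss_flip {ι : Type*} [Fintype ι] [DecidableEq ι] (w : ι → E) (T : Finset ι) (ε : ι → ℤˣ) :
    ss w ε + ss w (flipOut T * ε) = (2 : ℝ) • ∑ i ∈ T, ((ε i : ℤ) : ℝ) • w i := by
  unfold ss
  rw [← Finset.sum_add_distrib, Finset.smul_sum, ← Finset.sum_subset (Finset.subset_univ T)]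
  · refine Finset.sum_congr rfl fun i hi => ?_
    simp [flipOut, hi, two_smul]
  · intro i _ hi
    simp [flipOut, hi]

theorem sum_norm_ge_sub {ι : Type*} [Fintype ι] [DecidableEq ι] (w : ι → E) (T : Finset ι) :
    ∑ ε : ι → ℤˣ, ‖∑ i ∈ T, ((ε i : ℤ) : ℝ) • w i‖ ≤ ∑ ε : ι → ℤˣ, ‖ss w ε‖ := by
  have h1 : ∑ ε : ι → ℤˣ, ‖ss w (flipOut T * ε)‖ = ∑ ε : ι → ℤˣ, ‖ss w ε‖ :=
    Fintype.sum_equiv (Equiv.mulLeft (flipOut T)) _ _ (fun ε => rfl)
  have h2 : ∀ ε : ι → ℤˣ, 2 * ‖∑ i ∈ T, ((ε i : ℤ) : ℝ) • w i‖ ≤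
      ‖ss w ε‖ + ‖ss w (flipOut T * ε)‖ := by
    intro ε
    have := norm_add_le (ss w ε) (ss w (flipOut T * ε))
    rw [ss_flip, norm_smul, Real.norm_ofNat] at this
    exact this
  have h3 := Finset.sum_le_sum (s := (Finset.univ : Finset (ι → ℤˣ))) fun ε _ => h2 ε
  rw [Finset.sum_add_distrib, h1, ← Finset.mul_sum] at h3
  linarith

theorem sum_triple {ι : Type*} [Fintype ι] [DecidableEq ι] (w : ι → E) {i j k : ι} (hij : i ≠ j)
    (hjk : j ≠ k) (hik : i ≠ k) :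
    (Fintype.card (ι → ℤˣ) : ℝ) * (‖w i‖ + ‖w j‖ + ‖w k‖) ≤
      2 * ∑ ε : ι → ℤˣ, ‖ss w ε‖ := by
  have hT : ∀ ε : ι → ℤˣ, ∑ l ∈ ({i, j, k} : Finset ι), ((ε l : ℤ) : ℝ) • w l =
      ((ε i : ℤ) : ℝ) • w i + ((ε j : ℤ) : ℝ) • w j + ((ε k : ℤ) : ℝ) • w k := by
    intro ε
    rw [Finset.sum_insert (by simp [hij, hik]), Finset.sum_insert (by simp [hjk]),
      Finset.sum_singleton, add_assoc]
  have h1 := sum_norm_ge_sub w ({i, j, k} : Finset ι)
  simp_rw [hT] at h1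
  set S : (ι → ℤˣ) → ℝ := fun ε =>
    ‖((ε i : ℤ) : ℝ) • w i + ((ε j : ℤ) : ℝ) • w j + ((ε k : ℤ) : ℝ) • w k‖ with hS
  have flip : ∀ l : ι, ∑ ε : ι → ℤˣ, S (flip1 l * ε) = ∑ ε : ι → ℤˣ, S ε :=
    fun l => Fintype.sum_equiv (Equiv.mulLeft (flip1 l)) _ _ (fun ε => rfl)
  have h2 : ∀ ε : ι → ℤˣ, 2 * (‖w i‖ + ‖w j‖ + ‖w k‖) ≤
      S ε + S (flip1 i * ε) + S (flip1 j * ε)
        + S (flip1 k * ε) := by
    intro ε
    have h := hlawka_signs (((ε i : ℤ) : ℝ) • w i) (((ε j : ℤ) : ℝ) • w j) (((ε k : ℤ) : ℝ) • w k)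
    have hn : ∀ l : ι, ‖((ε l : ℤ) : ℝ) • w l‖ = ‖w l‖ := by
      intro l
      rw [norm_smul]
      rcases Int.units_eq_one_or (ε l) with h | h <;> simp [h]
    rw [hn, hn, hn] at h
    refine h.trans (le_of_eq ?_)
    simp only [hS, Pi.mul_apply, flip1, if_true, hij, hij.symm, hik, hik.symm, hjk, hjk.symm,
      if_false, one_mul, Units.val_neg, Int.cast_neg, neg_mul, neg_smul]
    rw [sub_eq_add_neg, sub_eq_add_neg]
  have h3 := Finset.sum_le_sum (s := (Finset.univ : Finset (ι → ℤˣ))) fun ε _ => h2 ε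
  rw [Finset.sum_add_distrib, Finset.sum_add_distrib, Finset.sum_add_distrib, flip, flip, flip,
    Finset.sum_const, Finset.card_univ, nsmul_eq_mul] at h3
  linarith

/-- The average of `‖∑ ± w i‖` is at least `3 / (2 n) ∑ ‖w i‖`, for `n = m + 1 ≥ 3` vectors. -/
theorem avg_signs {m : ℕ} (hm : 2 ≤ m) (w : Fin (m + 1) → E) :
    3 * (2 : ℝ) ^ (m + 1) * ∑ i, ‖w i‖ ≤
      2 * ((m : ℝ) + 1) * ∑ ε : Fin (m + 1) → ℤˣ, ‖ss w ε‖ := by
  have hcard : (Fintype.card (Fin (m + 1) → ℤˣ) : ℝ) = 2 ^ (m + 1) := by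
    simp [Fintype.card_units_int]
  have hd : ∀ i : Fin (m + 1), i ≠ i + 1 ∧ i + 1 ≠ i + 2 ∧ i ≠ i + 2 := by
    intro i
    obtain ⟨k, rfl⟩ : ∃ k, m = k + 2 := ⟨m - 2, by omega⟩
    have h1 : (1 : Fin (k + 2 + 1)) ≠ 0 := by
      intro h; have := congrArg Fin.val h; simp at this
    have h2 : (2 : Fin (k + 2 + 1)) ≠ 0 := by
      intro h; have := congrArg Fin.val h
      simp only [Fin.val_two, Fin.val_zero] at this
      omega
    have h3 : (2 : Fin (k + 2 + 1)) = 1 + 1 := by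
      ext; simp [Fin.val_add, Fin.val_two]
    refine ⟨fun h => h1 ?_, fun h => h1 ?_, fun h => h2 ?_⟩
    · have := h.symm; rwa [add_eq_left] at this
    · rw [h3, ← add_assoc] at h
      have := h.symm; rwa [add_eq_left] at this
    · have := h.symm; rwa [add_eq_left] at this
  have h := Finset.sum_le_sum (s := (Finset.univ : Finset (Fin (m + 1)))) fun i _ =>
    sum_triple w (hd i).1 (hd i).2.1 (hd i).2.2
  have s1 : ∑ i : Fin (m + 1), ‖w (i + 1)‖ = ∑ i, ‖w i‖ :=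
    Fintype.sum_equiv (Equiv.addRight 1) _ _ (fun i => rfl)
  have s2 : ∑ i : Fin (m + 1), ‖w (i + 2)‖ = ∑ i, ‖w i‖ :=
    Fintype.sum_equiv (Equiv.addRight 2) _ _ (fun i => rfl)
  rw [← Finset.mul_sum, Finset.sum_add_distrib, Finset.sum_add_distrib, s1, s2, Finset.sum_const,
    Finset.card_univ, Fintype.card_fin, nsmul_eq_mul, hcard] at h
  push_cast at h
  linarith

end

end Pool.Agent.K9h75.ASA
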