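import Pool.Agent.K9h75.ASA.Faces
import Pool.Agent.K9h75.ASA.Hlawka

/-!
# The two polytopes
-/

set_option autoImplicit false

namespace Pool.Agent.K9h75.ASA

open Module MeasureTheory Set
open scoped RealInnerProductSpace Pointwise ENNReal

variable {m : ℕ}

/-- the cross-polytope of radius `r` -/
def cp (m : ℕ) (r : ℝ) : Set (EE m) := {x | ∑ i, |x i| ≤ r}

/-- the truncated cross-polytope -/
def tcp (m : ℕ) (b s : ℝ) : Set (EE m) := {x | ∑ i, |x i| ≤ b ∧ ∀ i, |x i| ≤ b - s}

theorem cont_coord (i : Fin (m + 1)) : Continuous (fun x : EE m => x i) := by fun_prop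

theorem cont_l1 : Continuous (fun x : EE m => ∑ i, |x i|) := by fun_prop

theorem cp_closed (r : ℝ) : IsClosed (cp m r) := isClosed_le cont_l1 continuous_const

theorem tcp_closed (b s : ℝ) : IsClosed (tcp m b s) := by
  have : tcp m b s = cp m b ∩ ⋂ i, {x : EE m | |x i| ≤ b - s} := by
    ext x; simp [tcp, cp]
  rw [this]
  exact (cp_closed b).inter (isClosed_iInter fun i => isClosed_le (by fun_prop) continuous_const)

theorem cp_norm {r : ℝ} {x : EE m} (hx : x ∈ cp m r) : ‖x‖ ≤ r := by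
  have h1 : ‖x‖ ≤ ∑ i, |x i| := by
    have h : x = ∑ k, x k • e1 k := by
      ext l
      simp [e1_apply]
    conv_lhs => rw [h]
    refine (norm_sum_le _ _).trans (Finset.sum_le_sum fun i _ => ?_)
    rw [norm_smul, e1, PiLp.norm_single, norm_one, mul_one, Real.norm_eq_abs]
  exact h1.trans hx

theorem cp_bounded (r : ℝ) : Bornology.IsBounded (cp m r) :=
  (Metric.isBounded_iff_subset_closedBall 0).2 ⟨r, fun x hx => by
    rw [mem_closedBall_zero_iff]; exact cp_norm hx⟩

theorem cp_compact (r : ℝ) : IsCompact (cp m r) :=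
  Metric.isCompact_of_isClosed_isBounded (cp_closed r) (cp_bounded r)

theorem tcp_compact (b s : ℝ) : IsCompact (tcp m b s) :=
  (cp_compact b).of_isClosed_subset (tcp_closed b s) fun _ hx => hx.1

theorem abs_convex (a c x y : ℝ) (ha : 0 ≤ a) (hc : 0 ≤ c) :
    |a * x + c * y| ≤ a * |x| + c * |y| := by
  refine (abs_add_le _ _).trans (le_of_eq ?_)
  rw [abs_mul, abs_mul, abs_of_nonneg ha, abs_of_nonneg hc]

theorem l1_convex (a c : ℝ) (ha : 0 ≤ a) (hc : 0 ≤ c) (x y : EE m) :
    ∑ i, |(a • x + c • y) i| ≤ a * ∑ i, |x i| + c * ∑ i, |y i| := by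
  rw [Finset.mul_sum, Finset.mul_sum, ← Finset.sum_add_distrib]
  exact Finset.sum_le_sum fun i _ => by simpa using abs_convex a c (x i) (y i) ha hc

theorem cp_convex (r : ℝ) : Convex ℝ (cp m r) := by
  intro x hx y hy a c ha hc hac
  have h := l1_convex a c ha hc x y
  have hx' : ∑ i, |x i| ≤ r := hx
  have hy' : ∑ i, |y i| ≤ r := hy
  change ∑ i, |(a • x + c • y) i| ≤ r
  have : a * r + c * r = r := by rw [← add_mul, hac, one_mul]
  nlinarith [mul_le_mul_of_nonneg_left hx' ha, mul_le_mul_of_nonneg_left hy' hc]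

theorem tcp_convex (b s : ℝ) : Convex ℝ (tcp m b s) := by
  intro x hx y hy a c ha hc hac
  refine ⟨cp_convex b hx.1 hy.1 ha hc hac, fun i => ?_⟩
  have h := abs_convex a c (x i) (y i) ha hc
  have hx' := hx.2 i
  have hy' := hy.2 i
  have h2 : (a • x + c • y : EE m) i = a * x i + c * y i := by simp
  rw [h2]
  have : a * (b - s) + c * (b - s) = b - s := by rw [← add_mul, hac, one_mul]
  nlinarith [mul_le_mul_of_nonneg_left hx' ha, mul_le_mul_of_nonneg_left hy' hc]

theorem lt_subset_cp (r : ℝ) : {x : EE m | ∑ i, |x i| < r} ⊆ interior (cp m r) := by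
  refine interior_maximal ?_ (isOpen_lt cont_l1 continuous_const)
  intro x hx
  have h : ∑ i, |x i| < r := hx
  exact h.le

theorem cp_interior {r : ℝ} (hr : 0 < r) : (0 : EE m) ∈ interior (cp m r) := by
  apply lt_subset_cp
  simp [hr]

theorem tcp_interior {b s : ℝ} (hb : 0 < b) (hs : s < b) : (0 : EE m) ∈ interior (tcp m b s) := by
  have : {x : EE m | ∑ i, |x i| < b} ∩ ⋂ i, {x : EE m | |x i| < b - s} ⊆ interior (tcp m b s) := by
    refine interior_maximal ?_ ((isOpen_lt cont_l1 continuous_const).inter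
      (isOpen_iInter_of_finite fun i => isOpen_lt (by fun_prop) continuous_const))
    rintro x ⟨h1, h2⟩
    rw [mem_iInter] at h2
    exact ⟨le_of_lt h1, fun i => le_of_lt (h2 i)⟩
  apply this
  refine ⟨by simp [hb], ?_⟩
  rw [mem_iInter]
  intro i
  simp [hs]

theorem cp_neg {r : ℝ} {x : EE m} (hx : x ∈ cp m r) : -x ∈ cp m r := by
  simpa [cp] using hx

theorem tcp_neg {b s : ℝ} {x : EE m} (hx : x ∈ tcp m b s) : -x ∈ tcp m b s := by
  simpa [tcp] using hx

/-! ### The measure `S ↦ μHE[m] (A '' S)` -/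

/-- the pulled back measure -/
noncomputable def nu (A : EE m ≃ₗ[ℝ] EE m) : Measure (EE m) :=
  (μHE[m]).map A.toContinuousLinearEquiv.toHomeomorph.toMeasurableEquiv.symm

theorem nu_apply (A : EE m ≃ₗ[ℝ] EE m) (S : Set (EE m)) : nu A S = MA A S := by
  unfold nu MA
  rw [MeasurableEquiv.map_apply]
  congr 1
  ext x
  constructor
  · intro hx
    exact ⟨A.symm x, hx, by simp⟩
  · rintro ⟨y, hy, rfl⟩
    change A.symm (A y) ∈ S
    simpa using hy

theorem face_closed (ε : Fin (m + 1) → ℤˣ) (r : ℝ) : IsClosed (face ε r) := by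
  have : face ε r = (⋂ i, {x : EE m | 0 ≤ sg ε i * x i}) ∩ {x : EE m | ∑ i, sg ε i * x i = r} := by
    ext x; simp [face]
  rw [this]
  exact (isClosed_iInter fun i => isClosed_le continuous_const (by fun_prop)).inter
    (isClosed_eq (by fun_prop) continuous_const)

theorem face_le {ε : Fin (m + 1) → ℤˣ} {r : ℝ} {x : EE m} (hx : x ∈ face ε r) (i : Fin (m + 1)) :
    sg ε i * x i ≤ r := by
  rw [← hx.2]
  exact Finset.single_le_sum (f := fun j => sg ε j * x j) (fun j _ => hx.1 j) (Finset.mem_univ i)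

/-- the corner of the facet at the `i`-th vertex -/
def corner (ε : Fin (m + 1) → ℤˣ) (b t : ℝ) (i : Fin (m + 1)) : Set (EE m) :=
  {x | x ∈ face ε b ∧ b - t ≤ sg ε i * x i}

theorem corner_eq (ε : Fin (m + 1) → ℤˣ) {b t : ℝ} (hbt : t ≤ b) (i : Fin (m + 1)) :
    corner ε b t i = (fun x => ((b - t) * sg ε i) • e1 i + x) '' face ε t := by
  have hk : ∀ (y : EE m) (k : Fin (m + 1)), sg ε k * (((b - t) * sg ε i) • e1 i + y : EE m) k =
      (if k = i then b - t else 0) + sg ε k * y k := by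
    intro y k
    simp only [PiLp.add_apply, PiLp.smul_apply, e1_apply, smul_eq_mul]
    split_ifs with h
    · subst h
      have := sg_mul_self ε k
      linear_combination (b - t) * this
    · ring
  ext x
  constructor
  · rintro ⟨h1, h2⟩
    refine ⟨x - ((b - t) * sg ε i) • e1 i, ?_, by simp⟩
    have hx : ∀ k, sg ε k * (x - ((b - t) * sg ε i) • e1 i : EE m) k =
        sg ε k * x k - (if k = i then b - t else 0) := by
      intro k
      have := hk (x - ((b - t) * sg ε i) • e1 i) k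
      rw [add_sub_cancel] at this
      linarith
    refine ⟨fun k => ?_, ?_⟩
    · rw [hx]
      split_ifs with h
      · subst h; linarith
      · rw [sub_zero]; exact h1.1 k
    · simp_rw [hx]
      rw [Finset.sum_sub_distrib, h1.2]
      simp
  · rintro ⟨y, hy, rfl⟩
    refine ⟨⟨fun k => ?_, ?_⟩, ?_⟩
    · rw [hk]
      have := hy.1 k
      split_ifs <;> linarith
    · simp_rw [hk]
      rw [Finset.sum_add_distrib, hy.2]
      simp
    · rw [hk, if_pos rfl]
      linarith [hy.1 i]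

theorem corner_closed (ε : Fin (m + 1) → ℤˣ) (b t : ℝ) (i : Fin (m + 1)) :
    IsClosed (corner ε b t i) :=
  (face_closed ε b).inter (isClosed_le (f := fun _ : EE m => b - t)
    (g := fun x : EE m => sg ε i * x i) continuous_const (by fun_prop))

/-- the remaining part of the facet -/
def hex (ε : Fin (m + 1) → ℤˣ) (b s : ℝ) : Set (EE m) := {x | x ∈ face ε b ∧ ∀ i, |x i| ≤ b - s}

theorem hex_closed (ε : Fin (m + 1) → ℤˣ) (b s : ℝ) : IsClosed (hex ε b s) := by
  have : hex ε b s = face ε b ∩ ⋂ i, {x : EE m | |x i| ≤ b - s} := by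
    ext x; simp [hex]
  rw [this]
  exact (face_closed ε b).inter
    (isClosed_iInter fun i => isClosed_le (by fun_prop) continuous_const)

theorem MA_hex (A : EE m ≃ₗ[ℝ] EE m) (ε : Fin (m + 1) → ℤˣ) {b s t : ℝ} (ht : 0 < t)
    (hts : t < s) (hb : 2 * t < b) :
    MA A (hex ε b s) + ((m : ℝ≥0∞) + 1) * MA A (face ε t) ≤ MA A (face ε b) := by
  have hc : ∀ i, MA A (corner ε b t i) = MA A (face ε t) := fun i => by
    rw [corner_eq ε (by linarith) i, MA_translate]
  have h1 : ∑ i, nu A (corner ε b t i) = ((m : ℝ≥0∞) + 1) * MA A (face ε t) := by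
    simp_rw [nu_apply, hc]
    rw [Finset.sum_const, Finset.card_univ, Fintype.card_fin, nsmul_eq_mul]
    push_cast
    rfl
  rw [← h1, ← nu_apply A (hex ε b s), ← nu_apply A (face ε b)]
  have hdisj : Pairwise (Function.onFun Disjoint (corner ε b t)) := by
    intro i j hij
    rw [Function.onFun, Set.disjoint_left]
    rintro x hxi hxj
    have a1 := hxi.2
    have a2 := hxj.2
    have a3 : sg ε i * x i + sg ε j * x j ≤ b := by
      rw [← hxi.1.2]
      have := Finset.sum_le_sum_of_subset_of_nonneg (s := {i, j})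
        (f := fun k => sg ε k * x k) (Finset.subset_univ _) (fun k _ _ => hxi.1.1 k)
      rwa [Finset.sum_pair hij] at this
    linarith
  have h2 : nu A (⋃ i, corner ε b t i) = ∑ i, nu A (corner ε b t i) := by
    rw [measure_iUnion hdisj fun i => (corner_closed ε b t i).measurableSet, tsum_fintype]
  rw [← h2, ← measure_union]
  · refine measure_mono ?_
    rintro x (hx | hx)
    · exact hx.1
    · rw [mem_iUnion] at hx
      obtain ⟨i, hi⟩ := hx
      exact hi.1
  · rw [Set.disjoint_left]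
    rintro x hx hx2
    rw [mem_iUnion] at hx2
    obtain ⟨i, hi⟩ := hx2
    have a1 := hx.2 i
    have a2 := hi.2
    have a3 : sg ε i * x i ≤ |x i| := by
      have := le_abs_self (sg ε i * x i)
      rwa [abs_mul, sg_abs, one_mul] at this
    linarith
  · exact MeasurableSet.iUnion fun i => (corner_closed ε b t i).measurableSet

/-- the inner part of the facet of the unit cross-polytope -/
def inner1 (ε : Fin (m + 1) → ℤˣ) (δ : ℝ) : Set (EE m) :=
  {x | x ∈ face ε 1 ∧ ∀ i, δ ≤ sg ε i * x i}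

theorem inner1_closed (ε : Fin (m + 1) → ℤˣ) (δ : ℝ) : IsClosed (inner1 ε δ) := by
  have : inner1 ε δ = face ε 1 ∩ ⋂ i, {x : EE m | δ ≤ sg ε i * x i} := by
    ext x; simp [inner1]
  rw [this]
  exact (face_closed ε 1).inter
    (isClosed_iInter fun i => isClosed_le continuous_const (by fun_prop))

theorem inner1_supset (ε : Fin (m + 1) → ℤˣ) {δ : ℝ} (hδ : 0 ≤ δ) :
    (fun x => δ • sv ε + x) '' face ε (1 - (m + 1) * δ) ⊆ inner1 ε δ := by
  rintro _ ⟨y, hy, rfl⟩
  have hk : ∀ k : Fin (m + 1), sg ε k * (δ • sv ε + y : EE m) k = δ + sg ε k * y k := by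
    intro k
    simp only [PiLp.add_apply, PiLp.smul_apply, sv, smul_eq_mul]
    have := sg_mul_self ε k
    linear_combination δ * this
  refine ⟨⟨fun k => ?_, ?_⟩, fun k => ?_⟩
  · rw [hk]; linarith [hy.1 k]
  · simp_rw [hk]
    rw [Finset.sum_add_distrib, hy.2, Finset.sum_const, Finset.card_univ, Fintype.card_fin,
      nsmul_eq_mul]
    push_cast
    ring
  · rw [hk]; linarith [hy.1 k]

theorem sg_injective : Function.Injective (sg : (Fin (m + 1) → ℤˣ) → Fin (m + 1) → ℝ) := by
  intro ε ε' h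
  funext i
  have := congrFun h i
  unfold sg at this
  have h2 : ((ε i : ℤˣ) : ℤ) = ((ε' i : ℤˣ) : ℤ) := by exact_mod_cast this
  exact Units.ext h2

theorem sg_cases (ε : Fin (m + 1) → ℤˣ) (i : Fin (m + 1)) : sg ε i = 1 ∨ sg ε i = -1 := by
  unfold sg
  rcases Int.units_eq_one_or (ε i) with h | h <;> simp [h]

theorem frontier_cp_supset (ε : Fin (m + 1) → ℤˣ) {δ : ℝ} (hδ : 0 < δ) :
    inner1 ε δ ⊆ frontier (cp m 1) := by
  intro x hx
  have habs : ∀ i, |x i| = sg ε i * x i := by
    intro i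
    have h1 := hx.2 i
    have := abs_of_pos (lt_of_lt_of_le hδ h1)
    rwa [abs_mul, sg_abs, one_mul] at this
  have hsum : ∑ i, |x i| = 1 := by
    simp_rw [habs]
    exact hx.1.2
  refine ⟨subset_closure (le_of_eq hsum), ?_⟩
  intro hint
  rw [mem_interior_iff_mem_nhds] at hint
  have hc : Filter.Tendsto (fun c : ℝ => c • x) (nhds 1) (nhds x) := by
    have : Continuous (fun c : ℝ => c • x) := by fun_prop
    have h := this.tendsto 1
    rwa [one_smul] at h
  have h1 := hc.eventually hint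
  have h2 : ∀ᶠ c : ℝ in nhdsWithin 1 (Ioi 1), c • x ∈ cp m 1 := h1.filter_mono nhdsWithin_le_nhds
  have h3 : ∀ᶠ c : ℝ in nhdsWithin 1 (Ioi 1), 1 < c := eventually_mem_nhdsWithin
  obtain ⟨c, hc1, hc2⟩ := (h2.and h3).exists
  have h4 : ∑ i, |(c • x) i| ≤ 1 := hc1
  have h5 : ∑ i, |(c • x : EE m) i| = c * ∑ i, |x i| := by
    rw [Finset.mul_sum]
    refine Finset.sum_congr rfl fun i _ => ?_
    rw [PiLp.smul_apply, smul_eq_mul, abs_mul, abs_of_pos (by linarith)]
  rw [h5, hsum] at h4
  linarith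

theorem MA_frontier_cp_ge (A : EE m ≃ₗ[ℝ] EE m) {δ : ℝ} (hδ : 0 < δ) :
    ∑ ε : Fin (m + 1) → ℤˣ, MA A (face ε (1 - (m + 1) * δ)) ≤ MA A (frontier (cp m 1)) := by
  have h1 : ∀ ε : Fin (m + 1) → ℤˣ, MA A (face ε (1 - (m + 1) * δ)) ≤ nu A (inner1 ε δ) := by
    intro ε
    rw [← MA_translate A (δ • sv ε), ← nu_apply]
    exact measure_mono (inner1_supset ε hδ.le)
  refine (Finset.sum_le_sum fun ε _ => h1 ε).trans ?_
  have hdisj : Pairwise (Function.onFun Disjoint (fun ε : Fin (m + 1) → ℤˣ => inner1 ε δ)) := by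
    intro ε ε' hne
    rw [Function.onFun, Set.disjoint_left]
    intro x hx hx'
    apply hne
    apply sg_injective
    funext i
    have a1 := lt_of_lt_of_le hδ (hx.2 i)
    have a2 := lt_of_lt_of_le hδ (hx'.2 i)
    rcases sg_cases ε i with h | h <;> rcases sg_cases ε' i with h' | h' <;> rw [h] at a1 ⊢ <;>
      rw [h'] at a2 ⊢ <;> linarith
  have h2 : nu A (⋃ ε : Fin (m + 1) → ℤˣ, inner1 ε δ) = ∑ ε : Fin (m + 1) → ℤˣ, nu A (inner1 ε δ) := by
    rw [measure_iUnion hdisj fun ε => (inner1_closed ε δ).measurableSet, tsum_fintype]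
  rw [← h2, ← nu_apply]
  exact measure_mono (iUnion_subset fun ε => frontier_cp_supset ε hδ)

/-- the sign pattern of a vector -/
noncomputable def sp (x : EE m) : Fin (m + 1) → ℤˣ := fun i => if 0 ≤ x i then 1 else -1

theorem sp_mul (x : EE m) (i : Fin (m + 1)) : sg (sp x) i * x i = |x i| := by
  unfold sg sp
  by_cases h : 0 ≤ x i
  · simp [h, abs_of_nonneg h]
  · simp [h, abs_of_neg (not_le.1 h)]

theorem mem_face_sp (x : EE m) : x ∈ face (sp x) (∑ i, |x i|) :=
  ⟨fun i => by rw [sp_mul]; exact abs_nonneg _, by simp_rw [sp_mul]⟩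

theorem frontier_cp_subset (r : ℝ) : frontier (cp m r) ⊆ ⋃ ε : Fin (m + 1) → ℤˣ, face ε r := by
  intro x hx
  have h1 : x ∈ cp m r := (cp_closed r).frontier_subset hx
  have h2 : ¬ ∑ i, |x i| < r := by
    intro h
    exact hx.2 (lt_subset_cp r h)
  have h3 : ∑ i, |x i| = r := le_antisymm h1 (not_lt.1 h2)
  rw [mem_iUnion]
  exact ⟨sp x, h3 ▸ mem_face_sp x⟩

theorem frontier_tcp_subset {b s : ℝ} (hs : 0 < s) : frontier (tcp m b s) ⊆
    (⋃ ε : Fin (m + 1) → ℤˣ, hex ε b s) ∪
    ((⋃ i, (fun x => (b - s) • e1 i + x) '' (s • (disc i : Set (EE m)))) ∪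
    ⋃ i, (fun x => (-(b - s)) • e1 i + x) '' (s • (disc i : Set (EE m)))) := by
  intro x hx
  have h1 : x ∈ tcp m b s := (tcp_closed b s).frontier_subset hx
  have h2 : ¬ (x ∈ {x : EE m | ∑ i, |x i| < b} ∩ ⋂ i, {x : EE m | |x i| < b - s}) := by
    intro h
    apply hx.2
    refine interior_maximal ?_ ((isOpen_lt cont_l1 continuous_const).inter
      (isOpen_iInter_of_finite fun i => isOpen_lt (by fun_prop) continuous_const)) h
    rintro x ⟨h1, h2⟩
    rw [mem_iInter] at h2
    exact ⟨le_of_lt h1, fun i => le_of_lt (h2 i)⟩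
  by_cases h3 : ∑ i, |x i| < b
  · right
    have h4 : ∃ i, ¬ |x i| < b - s := by
      by_contra hcon
      push Not at hcon
      exact h2 ⟨h3, mem_iInter.2 hcon⟩
    obtain ⟨i, hi⟩ := h4
    have h5 : |x i| = b - s := le_antisymm (h1.2 i) (not_lt.1 hi)
    have h6 : ∀ c : ℝ, c = x i → x ∈ (fun x => c • e1 i + x) '' (s • (disc i : Set (EE m))) := by
      intro c hc
      refine ⟨x - c • e1 i, ?_, by simp⟩
      rw [mem_smul_set_iff_inv_smul_mem₀ hs.ne']
      have hz : (x - c • e1 i : EE m) i = 0 := by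
        simp [e1_apply, hc]
      refine ⟨by rw [PiLp.smul_apply, hz, smul_zero], ?_⟩
      have hk : ∀ k, |(s⁻¹ • (x - c • e1 i) : EE m) k| = s⁻¹ * (|x k| - if k = i then b - s else 0) := by
        intro k
        rw [PiLp.smul_apply, smul_eq_mul, abs_mul, abs_of_pos (inv_pos.2 hs)]
        congr 1
        split_ifs with h
        · subst h; rw [hz, h5]; simp
        · simp [e1_apply, h]
      simp_rw [hk]
      rw [← Finset.mul_sum, Finset.sum_sub_distrib]
      simp only [Finset.sum_ite_eq', Finset.mem_univ, if_true]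
      rw [inv_mul_le_iff₀ hs]
      have := h1.1
      linarith
    rcases le_total 0 (x i) with hpos | hneg
    · left
      rw [mem_iUnion]
      rw [abs_of_nonneg hpos] at h5
      exact ⟨i, h6 _ h5.symm⟩
    · right
      rw [mem_iUnion]
      rw [abs_of_nonpos hneg] at h5
      exact ⟨i, h6 _ (by linarith)⟩
  · left
    have h4 : ∑ i, |x i| = b := le_antisymm h1.1 (not_lt.1 h3)
    rw [mem_iUnion]
    exact ⟨sp x, h4 ▸ mem_face_sp x, h1.2⟩

end Pool.Agent.K9h75.ASA
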