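import Mathlib

/-!
# The norm determinant of a hyperplane parametrisation composed with a linear map
-/

set_option autoImplicit false

namespace Pool.Agent.K9h75.ASA

open Module MeasureTheory
open scoped RealInnerProductSpace

variable {m : ℕ}

/-- the ambient space -/
abbrev EE (m : ℕ) := EuclideanSpace ℝ (Fin (m + 1))
/-- the parameter space -/
abbrev FF (m : ℕ) := EuclideanSpace ℝ (Fin m)

/-- the standard basis of the ambient space -/
noncomputable abbrev eb (m : ℕ) : Basis (Fin (m + 1)) ℝ (EE m) :=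
  (EuclideanSpace.basisFun (Fin (m + 1)) ℝ).toBasis

theorem det_sq_eq_gram (v : Fin (m + 1) → EE m) :
    (eb m).det v ^ 2 = (Matrix.gram ℝ v).det := by
  rw [Matrix.gram_eq_conjTranspose_mul (EuclideanSpace.basisFun (Fin (m + 1)) ℝ) v,
    Matrix.det_mul, Matrix.det_conjTranspose, Basis.det_apply, star_trivial, sq]
  rfl

theorem gram_cons_orth (u : EE m) (v : Fin m → EE m) (h : ∀ j, ⟪v j, u⟫ = 0) :
    (Matrix.gram ℝ (Fin.cons u v : Fin (m + 1) → EE m)).det = ‖u‖ ^ 2 * (Matrix.gram ℝ v).det := by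
  rw [Matrix.det_succ_column_zero, Fin.sum_univ_succ]
  have h0 : ∀ j : Fin m, (-1 : ℝ) ^ ((Fin.succ j : Fin (m + 1)) : ℕ) *
      Matrix.gram ℝ (Fin.cons u v : Fin (m + 1) → EE m) (Fin.succ j) 0 *
      (Matrix.submatrix (Matrix.gram ℝ (Fin.cons u v : Fin (m + 1) → EE m)) (Fin.succ j).succAbove
        Fin.succ).det = 0 := by
    intro j
    rw [Matrix.gram_apply, Fin.cons_succ, Fin.cons_zero, h j, mul_zero, zero_mul]
  rw [Finset.sum_congr rfl fun j _ => h0 j, Finset.sum_const_zero, add_zero]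
  simp only [Fin.val_zero, pow_zero, one_mul, Matrix.gram_apply, Fin.cons_zero,
    real_inner_self_eq_norm_sq]
  congr 2

theorem gram_of_cross (v : Fin m → EE m) (μ : EE m) (hμ : μ ≠ 0)
    (h : ∀ z : EE m, (eb m).det (Fin.cons z v : Fin (m + 1) → EE m) = ⟪μ, z⟫) :
    (Matrix.gram ℝ v).det = ‖μ‖ ^ 2 := by
  have horth : ∀ j, ⟪v j, μ⟫ = 0 := by
    intro j
    rw [real_inner_comm, ← h (v j)]
    refine (eb m).det.map_eq_zero_of_eq _ (i := 0) (j := Fin.succ j) ?_ (Fin.succ_ne_zero j).symm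
    rw [Fin.cons_zero, Fin.cons_succ]
  have h1 := det_sq_eq_gram (Fin.cons μ v : Fin (m + 1) → EE m)
  rw [h μ, gram_cons_orth μ v horth, real_inner_self_eq_norm_sq, sq (‖μ‖ ^ 2)] at h1
  have h2 : ‖μ‖ ^ 2 ≠ 0 := pow_ne_zero 2 (norm_ne_zero_iff.2 hμ)
  exact (mul_left_cancel₀ h2 h1).symm

/-- the normal vector of the image hyperplane, with the volume factor as its length -/
noncomputable def nrm (A : EE m ≃ₗ[ℝ] EE m) (ν : EE m) : EE m :=
  LinearMap.det (A : EE m →ₗ[ℝ] EE m) • LinearMap.adjoint (A.symm : EE m →ₗ[ℝ] EE m) ν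

theorem nrm_add (A : EE m ≃ₗ[ℝ] EE m) (ν ν' : EE m) : nrm A (ν + ν') = nrm A ν + nrm A ν' := by
  unfold nrm
  rw [map_add, smul_add]

theorem nrm_smul (A : EE m ≃ₗ[ℝ] EE m) (c : ℝ) (ν : EE m) : nrm A (c • ν) = c • nrm A ν := by
  unfold nrm
  rw [map_smul, smul_comm]

theorem nrm_sum {ι : Type*} (s : Finset ι) (A : EE m ≃ₗ[ℝ] EE m) (ν : ι → EE m) :
    nrm A (∑ i ∈ s, ν i) = ∑ i ∈ s, nrm A (ν i) := by
  unfold nrm
  rw [map_sum, Finset.smul_sum]

theorem nrm_ne_zero (A : EE m ≃ₗ[ℝ] EE m) {ν : EE m} (hν : ν ≠ 0) : nrm A ν ≠ 0 := by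
  intro h
  have hdet : LinearMap.det (A : EE m →ₗ[ℝ] EE m) ≠ 0 := by
    have := LinearEquiv.isUnit_det' A
    exact this.ne_zero
  unfold nrm at h
  rw [smul_eq_zero] at h
  rcases h with h | h
  · exact hdet h
  · apply hν
    have h1 : ⟪LinearMap.adjoint (A.symm : EE m →ₗ[ℝ] EE m) ν, A ν⟫ = 0 := by
      rw [h, inner_zero_left]
    rw [LinearMap.adjoint_inner_left] at h1
    simpa using h1

/-- The norm determinant of `A ∘ f`, where `f` parametrises a hyperplane with normal `ν`. -/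
theorem normDet_comp_hyper (A : EE m ≃ₗ[ℝ] EE m) (f : FF m →ₗ[ℝ] EE m) (ν : EE m) (hν : ν ≠ 0)
    (c : ℝ) (hc : c ^ 2 = 1)
    (h : ∀ z : EE m, (eb m).det (Fin.cons z (fun j => f (EuclideanSpace.basisFun (Fin m) ℝ j)) :
      Fin (m + 1) → EE m) = c * ⟪ν, z⟫) :
    ((A : EE m →ₗ[ℝ] EE m) ∘ₗ f).normDet = ‖nrm A ν‖ := by
  have hc0 : c ≠ 0 := by rintro rfl; norm_num at hc
  have h1 := LinearMap.normDet_sq_eq_det_gram ((A : EE m →ₗ[ℝ] EE m) ∘ₗ f)
    (EuclideanSpace.basisFun (Fin m) ℝ)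
  have h2 := gram_of_cross
    (fun j => ((A : EE m →ₗ[ℝ] EE m) ∘ₗ f) (EuclideanSpace.basisFun (Fin m) ℝ j))
    (c • nrm A ν) (smul_ne_zero hc0 (nrm_ne_zero A hν)) ?_
  · rw [h2] at h1
    rw [norm_smul, mul_pow, Real.norm_eq_abs, sq_abs, hc, one_mul] at h1
    exact (pow_left_inj₀ (LinearMap.normDet_nonneg _) (norm_nonneg _) two_ne_zero).1 (by exact_mod_cast h1)
  · intro z
    have h3 : (Fin.cons z (fun j => ((A : EE m →ₗ[ℝ] EE m) ∘ₗ f)
        (EuclideanSpace.basisFun (Fin m) ℝ j)) : Fin (m + 1) → EE m) =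
        (A : EE m →ₗ[ℝ] EE m) ∘ (Fin.cons (A.symm z)
          (fun j => f (EuclideanSpace.basisFun (Fin m) ℝ j)) : Fin (m + 1) → EE m) := by
      funext k
      refine Fin.cases ?_ (fun j => ?_) k
      · simp
      · simp
    rw [h3, Basis.det_comp, h, inner_smul_left]
    unfold nrm
    rw [inner_smul_left, LinearMap.adjoint_inner_left]
    simp only [conj_trivial]
    change _ * (c * ⟪ν, A.symm z⟫) = c * (_ * ⟪ν, A.symm z⟫)
    ring

end Pool.Agent.K9h75.ASA
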