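import Pool.Agent.K9h75.ASA.Cross

/-!
# Facets of cross-polytopes and their measure under linear maps
-/

set_option autoImplicit false

namespace Pool.Agent.K9h75.ASA

open Module MeasureTheory Set
open scoped RealInnerProductSpace Pointwise ENNReal

variable {m : ℕ}

/-- the sign as a real number -/
def sg {ι : Type*} (ε : ι → ℤˣ) (i : ι) : ℝ := ((ε i : ℤ) : ℝ)

theorem sg_mul_self {ι : Type*} (ε : ι → ℤˣ) (i : ι) : sg ε i * sg ε i = 1 := by
  unfold sg
  rcases Int.units_eq_one_or (ε i) with h | h <;> simp [h]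

theorem sg_abs {ι : Type*} (ε : ι → ℤˣ) (i : ι) : |sg ε i| = 1 := by
  unfold sg
  rcases Int.units_eq_one_or (ε i) with h | h <;> simp [h]

/-- the sign vector -/
noncomputable def sv (ε : Fin (m + 1) → ℤˣ) : EE m := WithLp.toLp 2 (fun i => sg ε i)

/-- the basis vectors -/
noncomputable def e1 (i : Fin (m + 1)) : EE m := EuclideanSpace.single i 1

theorem inner_sv (ε : Fin (m + 1) → ℤˣ) (z : EE m) : ⟪sv ε, z⟫ = ∑ i, sg ε i * z i := by
  rw [PiLp.inner_apply]
  refine Finset.sum_congr rfl fun i _ => ?_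
  simp [sv, mul_comm]

theorem inner_e1 (i : Fin (m + 1)) (z : EE m) : ⟪e1 i, z⟫ = z i := by
  simp [e1, EuclideanSpace.inner_single_left]

theorem sv_ne (ε : Fin (m + 1) → ℤˣ) : sv ε ≠ 0 := by
  intro h
  have := congrArg (fun x : EE m => x 0) h
  simp only [sv, PiLp.zero_apply] at this
  have h2 := sg_mul_self ε 0
  rw [this] at h2
  norm_num at h2

theorem e1_ne (i : Fin (m + 1)) : (e1 i : EE m) ≠ 0 := by
  intro h
  have := congrArg (fun x : EE m => x i) h
  simp [e1] at this

/-- the functional `z ↦ det (z, v)` -/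
noncomputable def dl (v : Fin m → EE m) (z : EE m) : ℝ :=
  (eb m).det (Fin.cons z v : Fin (m + 1) → EE m)

theorem dl_eq (v : Fin m → EE m) (z : EE m) : dl v z = ((eb m).det.curryLeft z) v := rfl

theorem dl_add (v : Fin m → EE m) (z z' : EE m) : dl v (z + z') = dl v z + dl v z' := by
  simp only [dl_eq, map_add, AlternatingMap.add_apply]

theorem dl_smul (v : Fin m → EE m) (c : ℝ) (z : EE m) : dl v (c • z) = c * dl v z := by
  simp only [dl_eq, map_smul, AlternatingMap.smul_apply, smul_eq_mul]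

theorem dl_self (v : Fin m → EE m) (j : Fin m) : dl v (v j) = 0 := by
  refine (eb m).det.map_eq_zero_of_eq _ (i := 0) (j := Fin.succ j) ?_ (Fin.succ_ne_zero j).symm
  rw [Fin.cons_zero, Fin.cons_succ]

/-- the functional as a linear map -/
noncomputable def dlL (v : Fin m → EE m) : EE m →ₗ[ℝ] ℝ where
  toFun := dl v
  map_add' := dl_add v
  map_smul' := fun c z => by rw [dl_smul]; rfl

theorem dl_sum (v : Fin m → EE m) (a : Fin m → ℝ) : dl v (∑ j, a j • v j) = 0 := by
  change dlL v (∑ j, a j • v j) = 0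
  rw [map_sum]
  refine Finset.sum_eq_zero fun j _ => ?_
  change dl v (a j • v j) = 0
  rw [dl_smul, dl_self, mul_zero]

/-- the edge vectors of the facet -/
noncomputable def ev (ε : Fin (m + 1) → ℤˣ) (j : Fin m) : EE m :=
  sg ε j.succ • e1 j.succ - sg ε 0 • e1 0

theorem e1_apply (i k : Fin (m + 1)) : (e1 i : EE m) k = if k = i then 1 else 0 := by
  simp [e1]

theorem ev_zero (ε : Fin (m + 1) → ℤˣ) (j : Fin m) : ev ε j 0 = - sg ε 0 := by
  simp [ev, e1_apply, (Fin.succ_ne_zero j).symm]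

theorem ev_succ (ε : Fin (m + 1) → ℤˣ) (j k : Fin m) :
    ev ε j k.succ = if k = j then sg ε j.succ else 0 := by
  simp [ev, e1_apply, Fin.succ_ne_zero]

theorem decomp_ev (ε : Fin (m + 1) → ℤˣ) (z : EE m) :
    z = ∑ j, (sg ε j.succ * z j.succ) • ev ε j + (∑ i, sg ε i * z i) • (sg ε 0 • e1 0) := by
  ext k
  refine Fin.cases ?_ (fun l => ?_) k
  · simp only [PiLp.add_apply, PiLp.smul_apply, WithLp.ofLp_sum, Finset.sum_apply, ev_zero,
      smul_eq_mul, e1_apply, if_true, mul_one]
    rw [Fin.sum_univ_succ, ← Finset.sum_mul]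
    have := sg_mul_self ε 0
    linear_combination (-(z 0)) * this
  · simp only [PiLp.add_apply, PiLp.smul_apply, WithLp.ofLp_sum, Finset.sum_apply, ev_succ,
      smul_eq_mul, e1_apply, Fin.succ_ne_zero, if_false, mul_zero, add_zero, mul_ite]
    rw [Finset.sum_ite_eq Finset.univ l]
    simp only [Finset.mem_univ, if_true]
    have := sg_mul_self ε l.succ
    linear_combination (-(z l.succ)) * this

theorem dl_ev (ε : Fin (m + 1) → ℤˣ) (z : EE m) :
    dl (ev ε) z = dl (ev ε) (sg ε 0 • e1 0) * ⟪sv ε, z⟫ := by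
  conv_lhs => rw [decomp_ev ε z]
  rw [dl_add, dl_sum, zero_add, dl_smul, inner_sv, mul_comm]

theorem dl_ev_sq (ε : Fin (m + 1) → ℤˣ) : dl (ev ε) (sg ε 0 • e1 0) ^ 2 = 1 := by
  unfold dl
  rw [Basis.det_apply, Matrix.det_of_isUpperTriangular]
  · rw [sq, ← Finset.prod_mul_distrib]
    refine Finset.prod_eq_one fun i _ => ?_
    refine Fin.cases ?_ (fun j => ?_) i
    · simp only [Basis.toMatrix_apply, OrthonormalBasis.coe_toBasis_repr_apply,
        EuclideanSpace.basisFun_repr, Fin.cons_zero, PiLp.smul_apply, e1_apply, if_true,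
        smul_eq_mul, mul_one]
      exact sg_mul_self ε 0
    · simp only [Basis.toMatrix_apply, OrthonormalBasis.coe_toBasis_repr_apply,
        EuclideanSpace.basisFun_repr, Fin.cons_succ, ev_succ, if_true]
      exact sg_mul_self ε j.succ
  · intro i j hij
    simp only [id] at hij
    rw [Basis.toMatrix_apply, OrthonormalBasis.coe_toBasis_repr_apply,
      EuclideanSpace.basisFun_repr]
    revert hij
    refine Fin.cases ?_ (fun k => ?_) j
    · intro hij
      simp [e1_apply, hij.ne']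
    · intro hij
      rw [Fin.cons_succ]
      have hi : i ≠ 0 := (lt_of_le_of_lt (Fin.zero_le _) hij).ne'
      obtain ⟨l, rfl⟩ := Fin.exists_succ_eq.2 hi
      rw [ev_succ, if_neg]
      rintro rfl
      exact lt_irrefl _ hij

/-- parametrisation of the hyperplane parallel to the facet -/
noncomputable def fF (ε : Fin (m + 1) → ℤˣ) : FF m →ₗ[ℝ] EE m :=
  (EuclideanSpace.basisFun (Fin m) ℝ).toBasis.constr ℝ (ev ε)

theorem fF_apply (ε : Fin (m + 1) → ℤˣ) (y : FF m) : fF ε y = ∑ j, y j • ev ε j := by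
  unfold fF
  rw [Basis.constr_apply_fintype]
  refine Finset.sum_congr rfl fun j _ => ?_
  simp

theorem fF_basis (ε : Fin (m + 1) → ℤˣ) (j : Fin m) :
    fF ε (EuclideanSpace.basisFun (Fin m) ℝ j) = ev ε j := by
  unfold fF
  have := (EuclideanSpace.basisFun (Fin m) ℝ).toBasis.constr_basis ℝ (ev ε) j
  rw [← this]
  simp

/-- embedding as a coordinate hyperplane -/
noncomputable def gG (i : Fin (m + 1)) : FF m →ₗ[ℝ] EE m :=
  (EuclideanSpace.basisFun (Fin m) ℝ).toBasis.constr ℝ (fun j => (e1 (i.succAbove j) : EE m))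

theorem gG_basis (i : Fin (m + 1)) (j : Fin m) :
    gG i (EuclideanSpace.basisFun (Fin m) ℝ j) = e1 (i.succAbove j) := by
  unfold gG
  have := (EuclideanSpace.basisFun (Fin m) ℝ).toBasis.constr_basis ℝ
    (fun j => (e1 (i.succAbove j) : EE m)) j
  rw [← this]
  simp

theorem gG_apply (i : Fin (m + 1)) (y : FF m) : gG i y = ∑ j, y j • e1 (i.succAbove j) := by
  unfold gG
  rw [Basis.constr_apply_fintype]
  refine Finset.sum_congr rfl fun j _ => ?_
  simp

theorem gG_self (i : Fin (m + 1)) (y : FF m) : gG i y i = 0 := by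
  rw [gG_apply]
  simp only [WithLp.ofLp_sum, Finset.sum_apply, PiLp.smul_apply, e1_apply, smul_eq_mul]
  refine Finset.sum_eq_zero fun j _ => ?_
  rw [if_neg (Fin.succAbove_ne i j).symm, mul_zero]

theorem gG_succAbove (i : Fin (m + 1)) (y : FF m) (k : Fin m) : gG i y (i.succAbove k) = y k := by
  rw [gG_apply]
  simp only [WithLp.ofLp_sum, Finset.sum_apply, PiLp.smul_apply, e1_apply, smul_eq_mul]
  rw [Finset.sum_eq_single k]
  · simp
  · intro j _ hj
    rw [if_neg, mul_zero]
    intro h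
    exact hj (Fin.succAbove_right_injective h).symm
  · simp

theorem decomp_e1 (i : Fin (m + 1)) (z : EE m) :
    z = ∑ j, z (i.succAbove j) • e1 (i.succAbove j) + z i • e1 i := by
  have h : z = ∑ k, z k • e1 k := by
    ext l
    simp [e1_apply]
  conv_lhs => rw [h]
  rw [Fin.sum_univ_succAbove _ i, add_comm]

theorem dl_e1 (i : Fin (m + 1)) (z : EE m) :
    dl (fun j => e1 (i.succAbove j)) z = dl (fun j => e1 (i.succAbove j)) (e1 i) * ⟪e1 i, z⟫ := by
  conv_lhs => rw [decomp_e1 i z]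
  rw [dl_add, dl_sum (fun j => e1 (i.succAbove j)), zero_add, dl_smul, inner_e1, mul_comm]

theorem dl_e1_sq (i : Fin (m + 1)) :
    dl (fun j => e1 (i.succAbove j)) (e1 i : EE m) ^ 2 = 1 := by
  unfold dl
  rw [det_sq_eq_gram]
  have : Matrix.gram ℝ (Fin.cons (e1 i) (fun j => e1 (i.succAbove j)) : Fin (m + 1) → EE m) = 1 := by
    rw [Matrix.gram_eq_one_iff_orthonormal]
    have h : (Fin.cons (e1 i) (fun j => e1 (i.succAbove j)) : Fin (m + 1) → EE m) =
        (EuclideanSpace.basisFun (Fin (m + 1)) ℝ) ∘ (Fin.cons i (fun j => i.succAbove j)) := by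
      funext k
      refine Fin.cases ?_ (fun j => ?_) k
      · simp [e1]
      · simp [e1]
    rw [h]
    refine (EuclideanSpace.basisFun (Fin (m + 1)) ℝ).orthonormal.comp _ ?_
    intro a b
    refine Fin.cases ?_ (fun j => ?_) a <;> refine Fin.cases ?_ (fun k => ?_) b
    · simp
    · intro h; exact absurd h (by simp)
    · intro h; exact absurd h (by simp)
    · intro h
      simp only [Fin.cons_succ] at h
      rw [Fin.succAbove_right_injective h]
  rw [this, Matrix.det_one]

theorem normDet_fF (A : EE m ≃ₗ[ℝ] EE m) (ε : Fin (m + 1) → ℤˣ) :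
    ((A : EE m →ₗ[ℝ] EE m) ∘ₗ fF ε).normDet = ‖nrm A (sv ε)‖ := by
  refine normDet_comp_hyper A (fF ε) (sv ε) (sv_ne ε) _ (dl_ev_sq ε) fun z => ?_
  simp_rw [fF_basis]
  exact dl_ev ε z

theorem normDet_gG (A : EE m ≃ₗ[ℝ] EE m) (i : Fin (m + 1)) :
    ((A : EE m →ₗ[ℝ] EE m) ∘ₗ gG i).normDet = ‖nrm A (e1 i)‖ := by
  refine normDet_comp_hyper A (gG i) (e1 i) (e1_ne i) _ (dl_e1_sq i) fun z => ?_
  simp_rw [gG_basis]
  exact dl_e1 i z

/-- the standard simplex -/
def stdS (m : ℕ) : Set (FF m) := {y | (∀ j, 0 ≤ y j) ∧ ∑ j, y j ≤ 1}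
/-- the cross-polytope -/
def crossP (m : ℕ) : Set (FF m) := {y | ∑ j, |y j| ≤ 1}

/-- the facet of the cross-polytope of radius `r` -/
def face (ε : Fin (m + 1) → ℤˣ) (r : ℝ) : Set (EE m) :=
  {x | (∀ i, 0 ≤ sg ε i * x i) ∧ ∑ i, sg ε i * x i = r}

/-- the section of the unit cross-polytope by a coordinate hyperplane -/
def disc (i : Fin (m + 1)) : Set (EE m) := {x | x i = 0 ∧ ∑ j, |x j| ≤ 1}

/-- the measure of the image -/
noncomputable def MA (A : EE m ≃ₗ[ℝ] EE m) (S : Set (EE m)) : ℝ≥0∞ := μHE[m] (A '' S)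

theorem MA_image (A : EE m ≃ₗ[ℝ] EE m) (f : FF m →ₗ[ℝ] EE m) (S : Set (FF m)) :
    MA A (f '' S) = ENNReal.ofReal ((A : EE m →ₗ[ℝ] EE m) ∘ₗ f).normDet * volume S := by
  have h := ((A : EE m →ₗ[ℝ] EE m) ∘ₗ f).euclideanHausdorffMeasure_image_eq_normDet_mul_volume S
  rw [finrank_euclideanSpace_fin] at h
  rw [← h]
  unfold MA
  rw [image_image]
  rfl

theorem MA_translate (A : EE m ≃ₗ[ℝ] EE m) (p : EE m) (S : Set (EE m)) :
    MA A ((fun x => p + x) '' S) = MA A S := by
  unfold MA
  have : A '' ((fun x => p + x) '' S) = (fun x => A p + x) '' (A '' S) := by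
    rw [image_image, image_image]
    simp
  rw [this, (isometry_add_left (A p)).euclideanHausdorffMeasure_image]

theorem MA_smul (A : EE m ≃ₗ[ℝ] EE m) {r : ℝ} (hr : 0 < r) (S : Set (EE m)) :
    MA A (r • S) = ENNReal.ofReal (r ^ m) * MA A S := by
  unfold MA
  have h : A '' (r • S) = r • (A '' S) := by
    rw [← image_smul, ← image_smul, image_image, image_image]
    simp
  rw [h, Measure.euclideanHausdorffMeasure_smul₀ m hr.ne']
  rw [ENNReal.smul_def, smul_eq_mul]
  congr 1
  rw [ENNReal.coe_pow, ENNReal.ofReal_pow hr.le]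
  congr 1
  rw [← ENNReal.ofReal_coe_nnreal, coe_nnnorm, Real.norm_of_nonneg hr.le]

theorem face_one (ε : Fin (m + 1) → ℤˣ) :
    face ε 1 = (fun x => sg ε 0 • e1 0 + x) '' (fF ε '' stdS m) := by
  ext x
  rw [image_image]
  constructor
  · rintro ⟨h1, h2⟩
    refine ⟨WithLp.toLp 2 (fun j => sg ε j.succ * x j.succ), ⟨fun j => h1 j.succ, ?_⟩, ?_⟩
    · rw [Fin.sum_univ_succ] at h2
      have := h1 0
      simp only
      linarith
    · simp only [fF_apply]
      have := decomp_ev ε x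
      rw [h2, one_smul, add_comm] at this
      exact this.symm
  · rintro ⟨y, ⟨hy1, hy2⟩, rfl⟩
    have h0 : (sg ε 0 • e1 0 + fF ε y : EE m) 0 = sg ε 0 * (1 - ∑ j, y j) := by
      rw [fF_apply]
      simp only [PiLp.add_apply, PiLp.smul_apply, WithLp.ofLp_sum, Finset.sum_apply, ev_zero,
        smul_eq_mul, e1_apply, if_true, mul_one]
      rw [← Finset.sum_mul]
      ring
    have hs : ∀ l : Fin m, (sg ε 0 • e1 0 + fF ε y : EE m) l.succ = sg ε l.succ * y l := by
      intro l
      rw [fF_apply]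
      simp only [PiLp.add_apply, PiLp.smul_apply, WithLp.ofLp_sum, Finset.sum_apply, ev_succ,
        smul_eq_mul, e1_apply, Fin.succ_ne_zero, if_false, mul_zero, zero_add, mul_ite]
      rw [Finset.sum_ite_eq Finset.univ l]
      simp [mul_comm]
    constructor
    · intro i
      refine Fin.cases ?_ (fun l => ?_) i
      · rw [h0, ← mul_assoc, sg_mul_self, one_mul]
        linarith
      · rw [hs, ← mul_assoc, sg_mul_self, one_mul]
        exact hy1 l
    · rw [Fin.sum_univ_succ, h0, ← mul_assoc, sg_mul_self, one_mul]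
      simp_rw [hs, ← mul_assoc, sg_mul_self, one_mul]
      ring

theorem face_smul (ε : Fin (m + 1) → ℤˣ) {r : ℝ} (hr : 0 < r) : face ε r = r • face ε 1 := by
  ext x
  rw [mem_smul_set_iff_inv_smul_mem₀ hr.ne']
  simp only [face, mem_ofPred_eq, PiLp.smul_apply, smul_eq_mul]
  constructor
  · rintro ⟨h1, h2⟩
    refine ⟨fun i => ?_, ?_⟩
    · rw [mul_left_comm]
      exact mul_nonneg (inv_nonneg.2 hr.le) (h1 i)
    · simp_rw [mul_left_comm _ r⁻¹ _]
      rw [← Finset.mul_sum, h2, inv_mul_cancel₀ hr.ne']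
  · rintro ⟨h1, h2⟩
    refine ⟨fun i => ?_, ?_⟩
    · have := h1 i
      rw [mul_left_comm] at this
      exact nonneg_of_mul_nonneg_right (a := r⁻¹) this (inv_pos.2 hr) 
    · simp_rw [mul_left_comm _ r⁻¹ _] at h2
      rw [← Finset.mul_sum] at h2
      field_simp at h2
      linarith

theorem MA_face (A : EE m ≃ₗ[ℝ] EE m) (ε : Fin (m + 1) → ℤˣ) {r : ℝ} (hr : 0 < r) :
    MA A (face ε r) = ENNReal.ofReal (r ^ m) * (ENNReal.ofReal ‖nrm A (sv ε)‖ * volume (stdS m)) := by
  rw [face_smul ε hr, MA_smul A hr, face_one, MA_translate, MA_image, normDet_fF]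

theorem disc_eq (i : Fin (m + 1)) : (disc i : Set (EE m)) = gG i '' crossP m := by
  ext x
  constructor
  · rintro ⟨h1, h2⟩
    refine ⟨WithLp.toLp 2 (fun j => x (i.succAbove j)), ?_, ?_⟩
    · simp only [crossP, mem_ofPred_eq]
      rw [Fin.sum_univ_succAbove _ i, h1, abs_zero, zero_add] at h2
      exact h2
    · rw [gG_apply]
      have := decomp_e1 i x
      rw [h1, zero_smul, add_zero] at this
      exact this.symm
  · rintro ⟨y, hy, rfl⟩
    refine ⟨gG_self i y, ?_⟩
    rw [Fin.sum_univ_succAbove _ i, gG_self, abs_zero, zero_add]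
    simp_rw [gG_succAbove]
    exact hy

/-- reflections of the parameter space -/
noncomputable def refl (δ : Fin m → ℤˣ) : FF m ≃ₗᵢ[ℝ] FF m :=
  LinearIsometryEquiv.piLpCongrRight 2 (fun j =>
    if δ j = 1 then LinearIsometryEquiv.refl ℝ ℝ else LinearIsometryEquiv.neg ℝ)

theorem refl_apply (δ : Fin m → ℤˣ) (y : FF m) (j : Fin m) : refl δ y j = sg δ j * y j := by
  simp only [refl, LinearIsometryEquiv.piLpCongrRight_apply, sg]
  rcases Int.units_eq_one_or (δ j) with h | h
  · simp [h]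
  · simp [h]

theorem volume_crossP : volume (crossP m) ≤ 2 ^ m * volume (stdS m) := by
  have hsub : crossP m ⊆ ⋃ δ : Fin m → ℤˣ, refl δ ⁻¹' stdS m := by
    intro y hy
    rw [mem_iUnion]
    refine ⟨fun j => if 0 ≤ y j then 1 else -1, ?_, ?_⟩
    · intro j
      rw [refl_apply]
      unfold sg
      by_cases h : 0 ≤ y j
      · simp [h]
      · simp [h]; linarith
    · have : ∀ j, refl (fun j => if 0 ≤ y j then 1 else -1) y j = |y j| := by
        intro j
        rw [refl_apply]
        unfold sg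
        by_cases h : 0 ≤ y j
        · simp [h, abs_of_nonneg h]
        · simp [h, abs_of_neg (not_le.1 h)]
      simp_rw [this]
      exact hy
  refine (measure_mono hsub).trans ((measure_iUnion_le _).trans ?_)
  rw [tsum_fintype]
  have h : ∀ δ : Fin m → ℤˣ, volume (refl δ ⁻¹' stdS m) = volume (stdS m) := fun δ =>
    (refl δ).measurePreserving.measure_preimage_emb (refl δ).toHomeomorph.measurableEmbedding _
  simp_rw [h]
  rw [Finset.sum_const, Finset.card_univ, nsmul_eq_mul]
  simp [Fintype.card_units_int]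

theorem MA_disc (A : EE m ≃ₗ[ℝ] EE m) (i : Fin (m + 1)) :
    MA A (disc i) ≤ ENNReal.ofReal ‖nrm A (e1 i)‖ * (2 ^ m * volume (stdS m)) := by
  rw [disc_eq, MA_image, normDet_gG]
  gcongr
  exact volume_crossP

end Pool.Agent.K9h75.ASA
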