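import Pool.Agent.K9h75.ASA.Bodies

/-!
# Volumes, and the comparison of the two polytopes
-/

set_option autoImplicit false

namespace Pool.Agent.K9h75.ASA

open Module MeasureTheory Set
open scoped RealInnerProductSpace Pointwise ENNReal

variable {m : ℕ}

theorem cp_smul {r : ℝ} (hr : 0 < r) : cp m r = r • cp m 1 := by
  ext x
  rw [mem_smul_set_iff_inv_smul_mem₀ hr.ne']
  have h : ∑ i, |(r⁻¹ • x : EE m) i| = r⁻¹ * ∑ i, |x i| := by
    rw [Finset.mul_sum]
    refine Finset.sum_congr rfl fun i _ => ?_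
    rw [PiLp.smul_apply, smul_eq_mul, abs_mul, abs_of_pos (inv_pos.2 hr)]
  change ∑ i, |x i| ≤ r ↔ ∑ i, |(r⁻¹ • x : EE m) i| ≤ 1
  rw [h, inv_mul_le_iff₀ hr, mul_one]

theorem vol_cp {r : ℝ} (hr : 0 < r) :
    volume (cp m r) = ENNReal.ofReal (r ^ (m + 1)) * volume (cp m 1) := by
  rw [cp_smul hr, Measure.addHaar_smul, finrank_euclideanSpace_fin, abs_of_nonneg (by positivity)]

theorem vol_cp_one_pos : 0 < volume (cp m 1) := by
  have h : (interior (cp m 1)).Nonempty := ⟨0, cp_interior one_pos⟩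
  exact (isOpen_interior.measure_pos volume h).trans_le (measure_mono interior_subset)

theorem vol_cp_one_lt_top : volume (cp m 1) < ⊤ := (cp_compact 1).measure_lt_top

/-- the caps cut off at the vertices `± e_i` -/
def cap (b s : ℝ) (c : ℝ) (i : Fin (m + 1)) : Set (EE m) := {x | x ∈ cp m b ∧ b - s < c * x i}

theorem vol_cap_le {b s c : ℝ} (hc : c * c = 1) (hsb : s ≤ b) (i : Fin (m + 1)) :
    volume (cap b s c i) ≤ volume {y : EE m | y ∈ cp m s ∧ 0 < c * y i} := by
  have hsub : cap b s c i ⊆ (fun x => ((b - s) * c) • e1 i + x) '' {y : EE m | y ∈ cp m s ∧ 0 < c * y i} := by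
    rintro x ⟨h1, h2⟩
    have hca : |c| = 1 := by
      have : |c| * |c| = 1 := by rw [← abs_mul, hc, abs_one]
      nlinarith [abs_nonneg c]
    have hi : (x - ((b - s) * c) • e1 i : EE m) i = x i - (b - s) * c := by simp [e1_apply]
    have hpos : c * (x i - (b - s) * c) = c * x i - (b - s) := by linear_combination (-(b - s)) * hc
    refine ⟨x - ((b - s) * c) • e1 i, ⟨?_, ?_⟩, by simp⟩
    · have hk : ∀ k, |(x - ((b - s) * c) • e1 i : EE m) k| = |x k| - if k = i then b - s else 0 := by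
        intro k
        split_ifs with h
        · subst h
          rw [hi]
          have a1 : |x k - (b - s) * c| = c * x k - (b - s) := by
            have : |c * (x k - (b - s) * c)| = |x k - (b - s) * c| := by rw [abs_mul, hca, one_mul]
            rw [← this, hpos, abs_of_pos (by linarith)]
          have a2 : |x k| = c * x k := by
            have : |c * x k| = |x k| := by rw [abs_mul, hca, one_mul]
            rw [← this, abs_of_pos (by linarith)]
          rw [a1, a2]
        · simp [e1_apply, h]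
      change ∑ k, |(x - ((b - s) * c) • e1 i : EE m) k| ≤ s
      simp_rw [hk]
      rw [Finset.sum_sub_distrib]
      simp only [Finset.sum_ite_eq', Finset.mem_univ, if_true]
      have h3 : ∑ k, |x k| ≤ b := h1
      linarith
    · rw [hi, hpos]; linarith
  refine (measure_mono hsub).trans (le_of_eq ?_)
  rw [Set.image_add_left, measure_preimage_add]

theorem vol_caps_le {b s : ℝ} (hs : 0 < s) (hsb : s ≤ b) (i : Fin (m + 1)) :
    volume (cap b s 1 i : Set (EE m)) + volume (cap b s (-1) i) ≤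
      ENNReal.ofReal (s ^ (m + 1)) * volume (cp m 1) := by
  rw [← vol_cp hs]
  refine (add_le_add (vol_cap_le (by norm_num) hsb i) (vol_cap_le (by norm_num) hsb i)).trans ?_
  rw [← measure_union]
  · refine measure_mono ?_
    rintro x (hx | hx) <;> exact hx.1
  · rw [Set.disjoint_left]
    rintro x hx hx'
    have h1 := hx.2
    have h2 := hx'.2
    linarith
  · exact ((cp_closed s).measurableSet).inter
      (isOpen_lt (f := fun _ : EE m => (0 : ℝ)) (g := fun y : EE m => -1 * y i) continuous_const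
        (by fun_prop)).measurableSet

theorem vol_tcp {b s : ℝ} (hs : 0 < s) (hsb : s ≤ b) :
    ENNReal.ofReal (b ^ (m + 1)) * volume (cp m 1) ≤ volume (tcp m b s) +
      ((m : ℝ≥0∞) + 1) * (ENNReal.ofReal (s ^ (m + 1)) * volume (cp m 1)) := by
  have hb : 0 < b := hs.trans_le hsb
  rw [← vol_cp hb]
  have hsub : cp m b ⊆ tcp m b s ∪ ⋃ i, (cap b s 1 i ∪ cap b s (-1) i) := by
    intro x hx
    by_cases h : ∀ i, |x i| ≤ b - s
    · left; exact ⟨hx, h⟩
    · right
      push Not at h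
      obtain ⟨i, hi⟩ := h
      rw [mem_iUnion]
      refine ⟨i, ?_⟩
      rcases le_total 0 (x i) with h0 | h0
      · left
        rw [abs_of_nonneg h0] at hi
        exact ⟨hx, by linarith⟩
      · right
        rw [abs_of_nonpos h0] at hi
        exact ⟨hx, by linarith⟩
  refine (measure_mono hsub).trans ((measure_union_le _ _).trans ?_)
  gcongr
  refine (measure_iUnion_le _).trans ?_
  rw [tsum_fintype]
  have : ∀ i ∈ (Finset.univ : Finset (Fin (m + 1))), volume (cap b s 1 i ∪ cap b s (-1) i : Set (EE m)) ≤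
      ENNReal.ofReal (s ^ (m + 1)) * volume (cp m 1) := fun i _ =>
    (measure_union_le _ _).trans (vol_caps_le hs hsb i)
  refine (Finset.sum_le_sum this).trans (le_of_eq ?_)
  rw [Finset.sum_const, Finset.card_univ, Fintype.card_fin, nsmul_eq_mul]
  push_cast
  rfl

theorem vol_lt {b s : ℝ} (hs : 0 < s) (hsb : s ≤ b) (h : 1 + (m + 1) * s ^ (m + 1) < b ^ (m + 1)) :
    volume (cp m 1) < volume (tcp m b s) := by
  have h1 := vol_tcp (m := m) hs hsb
  have hV := vol_cp_one_lt_top (m := m)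
  have hV0 := vol_cp_one_pos (m := m)
  have hT : volume (tcp m b s) < ⊤ := (tcp_compact b s).measure_lt_top
  set V := (volume (cp m 1)).toReal with hVd
  have hVpos : 0 < V := ENNReal.toReal_pos hV0.ne' hV.ne
  rw [← ENNReal.toReal_lt_toReal hV.ne hT.ne]
  have h2 : (ENNReal.ofReal (b ^ (m + 1)) * volume (cp m 1)).toReal ≤ (volume (tcp m b s) +
      ((m : ℝ≥0∞) + 1) * (ENNReal.ofReal (s ^ (m + 1)) * volume (cp m 1))).toReal := by
    refine ENNReal.toReal_mono ?_ h1
    exact ENNReal.add_ne_top.2 ⟨hT.ne, ENNReal.mul_ne_top (by simp)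
      (ENNReal.mul_ne_top ENNReal.ofReal_ne_top hV.ne)⟩
  have hb : 0 < b := hs.trans_le hsb
  rw [ENNReal.toReal_mul, ENNReal.toReal_ofReal (by positivity), ENNReal.toReal_add hT.ne
    (ENNReal.mul_ne_top (by simp) (ENNReal.mul_ne_top ENNReal.ofReal_ne_top hV.ne)),
    ENNReal.toReal_mul, ENNReal.toReal_mul, ENNReal.toReal_ofReal (by positivity),
    ENNReal.toReal_add (by simp) (by simp), ENNReal.toReal_natCast, ENNReal.toReal_one, ← hVd] at h2
  have h3 := mul_lt_mul_of_pos_right h hVpos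
  nlinarith

/-! ### Surface areas -/

/-- the volume of the standard simplex as a real number -/
noncomputable def vs (m : ℕ) : ℝ := (volume (stdS m)).toReal

theorem stdS_finite : volume (stdS m) < ⊤ := by
  have hsub : stdS m ⊆ crossP m := by
    rintro y ⟨h1, h2⟩
    change ∑ j, |y j| ≤ 1
    rwa [Finset.sum_congr rfl fun j _ => abs_of_nonneg (h1 j)]
  have hb : Bornology.IsBounded (crossP m) := by
    refine (Metric.isBounded_iff_subset_closedBall 0).2 ⟨1, fun y hy => ?_⟩
    rw [mem_closedBall_zero_iff]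
    have h : y = ∑ k, y k • (EuclideanSpace.single k 1 : FF m) := by
      ext l
      simp [Pi.single_apply]
    have h1 : ‖y‖ ≤ ∑ i, |y i| := by
      conv_lhs => rw [h]
      refine (norm_sum_le _ _).trans (Finset.sum_le_sum fun i _ => ?_)
      rw [norm_smul, PiLp.norm_single, norm_one, mul_one, Real.norm_eq_abs]
    exact h1.trans hy
  exact (measure_mono hsub).trans_lt hb.measure_lt_top

theorem MA_face' (A : EE m ≃ₗ[ℝ] EE m) (ε : Fin (m + 1) → ℤˣ) {r : ℝ} (hr : 0 < r) :
    MA A (face ε r) = ENNReal.ofReal (r ^ m * (vs m * ‖nrm A (sv ε)‖)) := by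
  rw [MA_face A ε hr, ENNReal.ofReal_mul (by positivity), mul_comm (vs m),
    ENNReal.ofReal_mul (norm_nonneg _), vs, ENNReal.ofReal_toReal stdS_finite.ne]

theorem MA_disc' (A : EE m ≃ₗ[ℝ] EE m) (i : Fin (m + 1)) :
    MA A (disc i) ≤ ENNReal.ofReal (2 ^ m * (vs m * ‖nrm A (e1 i)‖)) := by
  refine (MA_disc A i).trans (le_of_eq ?_)
  rw [ENNReal.ofReal_mul (by positivity), mul_comm (vs m), ENNReal.ofReal_mul (norm_nonneg _), vs,
    ENNReal.ofReal_toReal stdS_finite.ne, ENNReal.ofReal_pow (by norm_num), ENNReal.ofReal_ofNat]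
  ring

theorem MA_hex' (A : EE m ≃ₗ[ℝ] EE m) (ε : Fin (m + 1) → ℤˣ) {b s t : ℝ} (ht : 0 < t)
    (hts : t < s) (hb : 2 * t < b) :
    MA A (hex ε b s) ≤ ENNReal.ofReal ((b ^ m - (m + 1) * t ^ m) * (vs m * ‖nrm A (sv ε)‖)) := by
  have h := MA_hex A ε ht hts hb
  have hb0 : 0 < b := by linarith
  have hv : 0 ≤ vs m := ENNReal.toReal_nonneg
  rw [MA_face' A ε hb0, MA_face' A ε ht] at h
  have e1 : ((m : ℝ≥0∞) + 1) = ENNReal.ofReal ((m : ℝ) + 1) := by
    rw [ENNReal.ofReal_add (by positivity) zero_le_one, ENNReal.ofReal_natCast, ENNReal.ofReal_one]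
  rw [e1, ← ENNReal.ofReal_mul (by positivity)] at h
  have h2 := ENNReal.le_sub_of_add_le_right ENNReal.ofReal_ne_top h
  rw [← ENNReal.ofReal_sub _ (by positivity)] at h2
  refine h2.trans (le_of_eq ?_)
  congr 1
  ring

theorem sv_sum (A : EE m ≃ₗ[ℝ] EE m) (ε : Fin (m + 1) → ℤˣ) :
    nrm A (sv ε) = ss (fun i => nrm A (e1 i)) ε := by
  have h : (sv ε : EE m) = ∑ i, sg ε i • e1 i := by
    ext k
    simp [sv, e1_apply]
  rw [h, nrm_sum]
  unfold ss
  refine Finset.sum_congr rfl fun i _ => ?_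
  rw [nrm_smul]
  rfl

/-- the total measure of the facets of the unit cross-polytope -/
noncomputable def TT (A : EE m ≃ₗ[ℝ] EE m) : ℝ :=
  ∑ ε : Fin (m + 1) → ℤˣ, vs m * ‖nrm A (sv ε)‖

/-- the total of the normal lengths -/
noncomputable def KK (A : EE m ≃ₗ[ℝ] EE m) : ℝ := ∑ i : Fin (m + 1), vs m * ‖nrm A (e1 i)‖

theorem TT_nonneg (A : EE m ≃ₗ[ℝ] EE m) : 0 ≤ TT A :=
  Finset.sum_nonneg fun _ _ => mul_nonneg ENNReal.toReal_nonneg (norm_nonneg _)

theorem KK_nonneg (A : EE m ≃ₗ[ℝ] EE m) : 0 ≤ KK A :=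
  Finset.sum_nonneg fun _ _ => mul_nonneg ENNReal.toReal_nonneg (norm_nonneg _)

theorem KK_le (hm : 2 ≤ m) (A : EE m ≃ₗ[ℝ] EE m) :
    3 * (2 : ℝ) ^ (m + 1) * KK A ≤ 2 * ((m : ℝ) + 1) * TT A := by
  have h := avg_signs hm (fun i => nrm A (e1 i))
  have hv : 0 ≤ vs m := ENNReal.toReal_nonneg
  unfold KK TT
  simp_rw [sv_sum]
  rw [← Finset.mul_sum, ← Finset.mul_sum]
  have := mul_le_mul_of_nonneg_left h hv
  linarith

theorem MA_frontier_tcp (A : EE m ≃ₗ[ℝ] EE m) {b s t : ℝ} (ht : 0 < t)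
    (hts : t < s) (hb : 2 * t < b) (hpos : 0 ≤ b ^ m - (m + 1) * t ^ m) :
    MA A (frontier (tcp m b s)) ≤
      ENNReal.ofReal ((b ^ m - (m + 1) * t ^ m) * TT A + s ^ m * 2 ^ (m + 1) * KK A) := by
  have hs : 0 < s := ht.trans hts
  have hv : 0 ≤ vs m := ENNReal.toReal_nonneg
  rw [← nu_apply]
  refine (measure_mono (frontier_tcp_subset hs)).trans ((measure_union_le _ _).trans ?_)
  rw [ENNReal.ofReal_add (mul_nonneg hpos (TT_nonneg A))
    (mul_nonneg (by positivity) (KK_nonneg A))]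
  gcongr
  · refine (measure_iUnion_le _).trans ?_
    rw [tsum_fintype]
    unfold TT
    rw [Finset.mul_sum, ENNReal.ofReal_sum_of_nonneg]
    · refine Finset.sum_le_sum fun ε _ => ?_
      rw [nu_apply]
      exact MA_hex' A ε ht hts hb
    · intro ε _
      positivity
  · have h1 : ∀ c : ℝ, nu A (⋃ i, (fun x => c • e1 i + x) '' (s • (disc i : Set (EE m)))) ≤
        ENNReal.ofReal (s ^ m * 2 ^ m * KK A) := by
      intro c
      refine (measure_iUnion_le _).trans ?_
      rw [tsum_fintype]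
      unfold KK
      rw [Finset.mul_sum, ENNReal.ofReal_sum_of_nonneg]
      · refine Finset.sum_le_sum fun i _ => ?_
        rw [nu_apply, MA_translate, MA_smul A hs, mul_assoc (s ^ m), ENNReal.ofReal_mul (by positivity)]
        gcongr
        exact MA_disc' A i
      · intro i _
        positivity
    refine (measure_union_le _ _).trans ((add_le_add (h1 _) (h1 _)).trans (le_of_eq ?_))
    rw [← ENNReal.ofReal_add (mul_nonneg (by positivity) (KK_nonneg A))
      (mul_nonneg (by positivity) (KK_nonneg A))]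
    congr 1
    ring

theorem MA_frontier_cp (A : EE m ≃ₗ[ℝ] EE m) {δ : ℝ} (hδ : 0 < δ) (hδ1 : (m + 1) * δ < 1) :
    ENNReal.ofReal ((1 - (m + 1) * δ) ^ m * TT A) ≤ MA A (frontier (cp m 1)) := by
  refine le_trans (le_of_eq ?_) (MA_frontier_cp_ge A hδ)
  have hv : 0 ≤ vs m := ENNReal.toReal_nonneg
  have h1 : 0 < 1 - (m + 1) * δ := by linarith
  unfold TT
  rw [Finset.mul_sum, ENNReal.ofReal_sum_of_nonneg]
  · refine Finset.sum_congr rfl fun ε _ => ?_
    rw [MA_face' A ε h1]
  · intro ε _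
    positivity

theorem MA_frontier_cp_lt_top (A : EE m ≃ₗ[ℝ] EE m) : MA A (frontier (cp m 1)) < ⊤ := by
  rw [← nu_apply]
  refine (measure_mono (frontier_cp_subset 1)).trans_lt ((measure_iUnion_le _).trans_lt ?_)
  rw [tsum_fintype, ENNReal.sum_lt_top]
  intro ε _
  rw [nu_apply, MA_face' A ε one_pos]
  exact ENNReal.ofReal_lt_top

/-- The comparison for suitable parameters. -/
theorem main (hm : 2 ≤ m) : ∃ b s : ℝ, 0 < s ∧ s < b ∧ volume (cp m 1) < volume (tcp m b s) ∧
    ∀ A : EE m ≃ₗ[ℝ] EE m, MA A (frontier (tcp m b s)) ≤ MA A (frontier (cp m 1)) := by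
  have hm0 : (0 : ℝ) < m := by exact_mod_cast (by omega : 0 < m)
  have hm2 : (2 : ℝ) ≤ m := by exact_mod_cast hm
  set s : ℝ := 1 / 12 with hs
  set x : ℝ := (m + 1) * s ^ m / 12 with hx
  have hspos : 0 < s := by norm_num [hs]
  have hsm : 0 < s ^ m := by positivity
  have hsm1 : s ^ m ≤ 1 := pow_le_one₀ hspos.le (by norm_num [hs])
  have hsm2 : s ^ m ≤ s ^ 2 := pow_le_pow_of_le_one hspos.le (by norm_num [hs]) hm
  have hxpos : 0 < x := by positivity
  set b : ℝ := (1 + x) ^ (1 / (m : ℝ)) with hb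
  have hb1 : 1 ≤ b := Real.one_le_rpow (by linarith) (by positivity)
  have hbm : b ^ m = 1 + x := by
    rw [hb, ← Real.rpow_natCast, ← Real.rpow_mul (by linarith), one_div,
      inv_mul_cancel₀ hm0.ne', Real.rpow_one]
  have hbm1 : 1 + (m + 1) * s ^ (m + 1) < b ^ (m + 1) := by
    have h1 : b ^ (m + 1) = (1 + x) ^ (((m : ℝ) + 1) / m) := by
      rw [hb, ← Real.rpow_natCast, ← Real.rpow_mul (by linarith)]
      congr 1
      push_cast
      ring
    have h2 : 1 + (((m : ℝ) + 1) / m) * x ≤ (1 + x) ^ (((m : ℝ) + 1) / m) :=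
      one_add_mul_self_le_rpow_one_add (by linarith) (by rw [le_div_iff₀ hm0]; linarith)
    rw [h1]
    refine lt_of_lt_of_le ?_ h2
    have h3 : s < ((m : ℝ) + 1) / m / 12 := by
      rw [hs, div_div, lt_div_iff₀ (by positivity)]
      linarith
    have h4 : (m + 1) * s ^ (m + 1) = ((m + 1) * s ^ m) * s := by ring
    have h5 : (((m : ℝ) + 1) / m) * x = ((m + 1) * s ^ m) * (((m : ℝ) + 1) / m / 12) := by
      rw [hx]; ring
    rw [h4, h5]
    have := mul_lt_mul_of_pos_left h3 (by positivity : 0 < ((m : ℝ) + 1) * s ^ m)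
    linarith
  refine ⟨b, s, hspos, by rw [hs]; linarith, vol_lt hspos (by rw [hs]; linarith) hbm1, ?_⟩
  intro A
  set t : ℝ := s * (1 - 1 / (6 * m)) with ht
  have ht1 : 1 / (6 * (m : ℝ)) ≤ 1 / 12 := by
    apply one_div_le_one_div_of_le (by norm_num) (by linarith)
  have ht2 : 0 < 1 / (6 * (m : ℝ)) := by positivity
  have htpos : 0 < t := by
    rw [ht]
    apply mul_pos hspos
    linarith
  have hts : t < s := by
    rw [ht]
    nlinarith
  have htm : 5 / 6 * s ^ m ≤ t ^ m := by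
    rw [ht, mul_pow, mul_comm]
    have h := one_add_mul_le_pow (a := -(1 / (6 * (m : ℝ)))) (by linarith) m
    have h2 : 1 + (m : ℝ) * -(1 / (6 * (m : ℝ))) = 5 / 6 := by
      field_simp
      norm_num
    rw [h2] at h
    have h3 : 1 + -(1 / (6 * (m : ℝ))) = 1 - 1 / (6 * (m : ℝ)) := by ring
    rw [h3] at h
    exact mul_le_mul_of_nonneg_left h hsm.le
  have htm' : t ^ m ≤ s ^ m := pow_le_pow_left₀ htpos.le hts.le m
  set δ : ℝ := s ^ m / (12 * m) with hδ
  have hδpos : 0 < δ := by positivity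
  have hδ2 : (m : ℝ) * ((m + 1) * δ) = x := by
    rw [hδ, hx]
    field_simp
  have hδ1 : (m + 1) * δ ≤ 1 / 8 := by
    have h1 : (m + 1) * δ = ((m : ℝ) + 1) / m * (s ^ m / 12) := by
      rw [hδ]; field_simp
    have h2 : ((m : ℝ) + 1) / m ≤ 3 / 2 := by
      rw [div_le_iff₀ hm0]; linarith
    rw [h1]
    have h3 : s ^ m / 12 ≤ 1 / 12 := by linarith
    calc ((m : ℝ) + 1) / m * (s ^ m / 12) ≤ 3 / 2 * (1 / 12) :=
          mul_le_mul h2 h3 (by positivity) (by norm_num)
      _ = 1 / 8 := by norm_num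
  have hN4 : 1 - x ≤ (1 - (m + 1) * δ) ^ m := by
    have h := one_add_mul_le_pow (a := -(((m : ℝ) + 1) * δ)) (by linarith) m
    have h3 : 1 + -(((m : ℝ) + 1) * δ) = 1 - (m + 1) * δ := by ring
    rw [h3] at h
    have h4 : 1 + (m : ℝ) * -(((m : ℝ) + 1) * δ) = 1 - x := by
      rw [← hδ2]; ring
    rw [h4] at h
    exact h
  have hpos : 0 ≤ b ^ m - (m + 1) * t ^ m := by
    have h1 : ((m : ℝ) + 1) * s ^ m ≤ 1 := by
      -- (m+1) (1/12)^m ≤ 1
      have h := one_add_mul_le_pow (a := (11 : ℝ)) (by norm_num) m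
      have h12 : (1 + 11 : ℝ) ^ m * s ^ m = 1 := by
        rw [← mul_pow, hs]; norm_num
      have h13 : (m : ℝ) + 1 ≤ (1 + 11 : ℝ) ^ m := by
        refine le_trans ?_ h
        nlinarith
      calc ((m : ℝ) + 1) * s ^ m ≤ (1 + 11 : ℝ) ^ m * s ^ m :=
            mul_le_mul_of_nonneg_right h13 hsm.le
        _ = 1 := h12
    have h2 : (m + 1) * t ^ m ≤ (m + 1) * s ^ m := mul_le_mul_of_nonneg_left htm' (by positivity)
    rw [hbm]
    linarith
  refine (MA_frontier_tcp A htpos hts (by rw [hs] at hts; linarith) hpos).trans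
    (le_trans ?_ (MA_frontier_cp A hδpos (by linarith)))
  apply ENNReal.ofReal_le_ofReal
  have hK := KK_le hm A
  have hT := TT_nonneg A
  have k1 : s ^ m * 2 ^ (m + 1) * KK A ≤ (2 * (m + 1) / 3) * s ^ m * TT A := by
    have := mul_le_mul_of_nonneg_left hK hsm.le
    linarith
  have k2 : (b ^ m - (m + 1) * t ^ m) * TT A + (2 * (m + 1) / 3) * s ^ m * TT A ≤
      (1 - x) * TT A := by
    rw [← add_mul]
    apply mul_le_mul_of_nonneg_right _ hT
    rw [hbm]
    have := mul_le_mul_of_nonneg_left htm (by positivity : 0 ≤ (m : ℝ) + 1)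
    rw [hx]
    linarith
  have k3 := mul_le_mul_of_nonneg_right hN4 hT
  linarith

end Pool.Agent.K9h75.ASA
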